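import Mathlib

/-!
Non-transitive mod one maps of slope at least `β` with a gap `(η, ω)`.
-/

set_option autoImplicit false

namespace Pool.Agent.Work.MP_ea58a7_an.Hedge

open Set

/-- One family of examples: slope `β` outside the gap `(η, ω)`, steeper on the gap. -/
theorem example_gap {β η ω s : ℝ} (c : ℕ → ℝ) (M j : ℕ) (hβ : 1 < β) (hη : 0 < η) (hηω : η < ω)
    (hωs : ω ≤ s) (hs : β + s ≤ 2) (hc0 : c 0 = ω) (hc : ∀ k, c (k + 1) = β * c k + s)
    (hjM : j ≤ M) (hM : c M + β ^ (M + 1) * η ≤ 1 + η) (hj1 : c j ≤ β * c M + s - 1)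
    (hj2 : β + s - 1 ≤ c j + β ^ (j + 1) * η) :
    ∃ f : ℝ → ℝ, ContinuousOn f (Icc 0 1) ∧ 0 ≤ f 0 ∧ f 1 = β + s ∧
      (∀ x y, 0 ≤ x → x ≤ y → y ≤ 1 → β * (y - x) ≤ f y - f x) ∧
      ∀ (n : ℕ) (z : ℝ), 0 ≤ z → z ≤ η → (fun y => Int.fract (f y))^[n] z ∉ Ioo η ω := by
  have hd : 0 < ω - η := by linarith only [hηω]
  set r : ℝ → ℝ := fun x => max 0 (min 1 ((x - η) / (ω - η))) with hr
  have r0 : ∀ x, x ≤ η → r x = 0 := by
    intro x hx
    have : (x - η) / (ω - η) ≤ 0 := div_nonpos_of_nonpos_of_nonneg (by linarith only [hx]) hd.le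
    exact max_eq_left ((min_le_right _ _).trans this)
  have r1 : ∀ x, ω ≤ x → r x = 1 := by
    intro x hx
    have : 1 ≤ (x - η) / (ω - η) := by rw [le_div_iff₀ hd]; linarith
    simp only [hr, min_eq_left this]
    exact max_eq_right zero_le_one
  have rm : ∀ x y, x ≤ y → r x ≤ r y := by
    intro x y hxy
    exact max_le_max le_rfl (min_le_min le_rfl
      (div_le_div_of_nonneg_right (by linarith) hd.le))
  have rc : Continuous r := by
    simp only [hr]
    fun_prop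
  set f : ℝ → ℝ := fun x => β * x + ω + (s - ω) * r x with hf
  have fL : ∀ x, x ≤ η → f x = β * x + ω := by
    intro x hx; simp only [hf, r0 x hx]; ring
  have fR : ∀ x, ω ≤ x → f x = β * x + s := by
    intro x hx; simp only [hf, r1 x hx]; ring
  have hω1 : ω < 1 := by linarith
  have cω : ∀ k, ω ≤ c k := by
    intro k
    induction k with
    | zero => exact hc0.ge
    | succ k ih => rw [hc]; linarith only [hη, hηω, hωs, ih, hβ, mul_pos_of_neg_of_neg (Mathlib.Tactic.Linarith.sub_neg_of_lt hβ) (Mathlib.Tactic.Linarith.sub_neg_of_lt hη), mul_pos_of_neg_of_neg (Mathlib.Tactic.Linarith.sub_neg_of_lt hβ) (Mathlib.Tactic.Linarith.sub_neg_of_lt hηω), mul_nonneg_of_nonpos_of_nonpos (le_of_lt (Mathlib.Tactic.Linarith.sub_neg_of_lt hβ)) (Mathlib.Tactic.Linarith.sub_nonpos_of_le ih)]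
  have cm : ∀ k, k ≤ M → c k + β ^ (k + 1) * η ≤ 1 + η := by
    intro k hk
    have hmono : Monotone (fun k => c k + β ^ (k + 1) * η) := by
      refine monotone_nat_of_le_succ (fun k => ?_)
      have h1 := cω k
      have h2 : β ^ (k + 1) ≤ β ^ (k + 1 + 1) := pow_le_pow_right₀ hβ.le (by omega)
      have h3 := mul_le_mul_of_nonneg_right h2 hη.le
      have h4 : c k ≤ c (k + 1) := by rw [hc]; linarith only [hη, hηω, hωs, hβ, h1, mul_pos_of_neg_of_neg (Mathlib.Tactic.Linarith.sub_neg_of_lt hβ) (Mathlib.Tactic.Linarith.sub_neg_of_lt hη), mul_pos_of_neg_of_neg (Mathlib.Tactic.Linarith.sub_neg_of_lt hβ) (Mathlib.Tactic.Linarith.sub_neg_of_lt hηω), mul_nonneg_of_nonpos_of_nonpos (le_of_lt (Mathlib.Tactic.Linarith.sub_neg_of_lt hβ)) (Mathlib.Tactic.Linarith.sub_nonpos_of_le h1)]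
      show c k + β ^ (k + 1) * η ≤ c (k + 1) + β ^ (k + 1 + 1) * η
      linarith only [h3, h4]
    exact (hmono hk).trans hM
  refine ⟨f, ?_, ?_, ?_, ?_, ?_⟩
  · apply Continuous.continuousOn
    simp only [hf]
    fun_prop
  · rw [fL 0 hη.le]; linarith
  · rw [fR 1 hω1.le]; ring
  · intro x y _ hxy _
    have := mul_le_mul_of_nonneg_left (rm x y hxy) (show 0 ≤ s - ω by linarith)
    simp only [hf]
    linarith
  · set P : ℝ → Prop := fun x => 0 ≤ x ∧ x < 1 ∧
      (x ≤ η ∨ ∃ k, k ≤ M ∧ c k ≤ x ∧ x ≤ c k + β ^ (k + 1) * η) with hP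
    have frac1 : ∀ y : ℝ, 1 ≤ y → y < 2 → Int.fract y = y - 1 := by
      intro y h1 h2
      rw [Int.fract_eq_iff]
      exact ⟨by linarith, by linarith, 1, by simp⟩
    have land : ∀ y k, k ≤ M → c k ≤ y → y ≤ c k + β ^ (k + 1) * η → P (Int.fract y) := by
      intro y k hk h1 h2
      refine ⟨Int.fract_nonneg _, Int.fract_lt_one _, ?_⟩
      have h3 := cm k hk
      have h4 := cω k
      by_cases hy : y < 1
      · rw [Int.fract_eq_self.2 ⟨by linarith only [hη, hηω, h1, h4], hy⟩]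
        exact Or.inr ⟨k, hk, h1, h2⟩
      · rw [frac1 y (not_lt.1 hy) (by linarith only [hβ, hηω, hωs, hs, h2, h3])]
        left; linarith
    have step : ∀ x, P x → P (Int.fract (f x)) := by
      rintro x ⟨hx0, hx1, hx | ⟨k, hk, h1, h2⟩⟩
      · rw [fL x hx]
        refine land _ 0 (Nat.zero_le M) ?_ ?_
        · rw [hc0]; linarith only [hx0, hβ, mul_nonneg_of_nonpos_of_nonpos (le_of_lt (Mathlib.Tactic.Linarith.sub_neg_of_lt hβ)) (Mathlib.Tactic.Linarith.sub_nonpos_of_le hx0)]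
        · rw [hc0, zero_add, pow_one]; linarith only [hx, hβ, mul_nonneg_of_nonpos_of_nonpos (le_of_lt (Mathlib.Tactic.Linarith.sub_neg_of_lt hβ)) (Mathlib.Tactic.Linarith.sub_nonpos_of_le hx)]
      · rw [fR x ((cω k).trans h1)]
        have h3 := mul_le_mul_of_nonneg_left h1 (show 0 ≤ β by linarith only [hβ, hη, hηω, hωs, hs])
        have h4 := mul_le_mul_of_nonneg_left h2 (show 0 ≤ β by linarith only [hβ, hη, hηω, hωs, hs])
        rcases hk.lt_or_eq with h5 | h5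
        · refine land _ (k + 1) h5 ?_ ?_
          · rw [hc]; linarith
          · rw [hc, pow_succ β (k + 1)]; linarith
        · subst h5
          have h6 := cω j
          have h7 : β * x < β := by linarith only [hx1, hβ, mul_pos_of_neg_of_neg (Mathlib.Tactic.Linarith.sub_neg_of_lt hβ) (Mathlib.Tactic.Linarith.sub_neg_of_lt hx1)]
          refine ⟨Int.fract_nonneg _, Int.fract_lt_one _, Or.inr ⟨j, hjM, ?_, ?_⟩⟩
          · rw [frac1 _ (by linarith only [hη, hηω, h3, hj1, h6]) (by linarith)]; linarith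
          · rw [frac1 _ (by linarith) (by linarith)]; linarith
    intro n z hz0 hz
    have all : ∀ n : ℕ, P ((fun y => Int.fract (f y))^[n] z) := by
      intro n
      induction n with
      | zero => exact ⟨hz0, by show z < 1; linarith, Or.inl hz⟩
      | succ n ih => rw [Function.iterate_succ_apply']; exact step _ ih
    rintro ⟨h1, h2⟩
    obtain ⟨-, -, h3 | ⟨k, -, h3, -⟩⟩ := all n
    · linarith
    · linarith [cω k]

/-- Closed form of the left end points. -/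
lemma closed_step {β : ℝ} (hβ : 1 < β) (ω s : ℝ) (k : ℕ) :
    β ^ (k + 1) * ω + s * (β ^ (k + 1) - 1) / (β - 1) =
      β * (β ^ k * ω + s * (β ^ k - 1) / (β - 1)) + s := by
  have : β - 1 ≠ 0 := by linarith
  field_simp
  ring

/-- The linear example. -/
theorem example_B {β : ℝ} {k : ℕ} (hβ : 1 < β) (h1 : β ^ (k + 2) < 2) :
    ∃ (f : ℝ → ℝ) (η ω : ℝ), 0 < η ∧ η < ω ∧ ω ≤ 1 ∧ ContinuousOn f (Icc 0 1) ∧ 0 ≤ f 0 ∧
      f 1 ≤ 2 ∧ f 1 = β + (β - 1) / (β * (β ^ (k + 2) - 1)) ∧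
      (∀ x y, 0 ≤ x → x ≤ y → y ≤ 1 → β * (y - x) ≤ f y - f x) ∧
      ∀ (n : ℕ) (z : ℝ), 0 ≤ z → z ≤ η → (fun y => Int.fract (f y))^[n] z ∉ Ioo η ω := by
  have hb : 0 < β - 1 := by linarith
  have hβ0 : 0 < β := by linarith
  have hB2 : β ^ 2 ≤ β ^ (k + 2) := pow_le_pow_right₀ hβ.le (by omega)
  have hB1 : 0 < β ^ (k + 2) - 1 := by linarith only [hβ, hB2, mul_pos_of_neg_of_neg (Mathlib.Tactic.Linarith.sub_neg_of_lt hβ) (Mathlib.Tactic.Linarith.sub_neg_of_lt hβ)]
  set s := (β - 1) / (β * (β ^ (k + 2) - 1)) with hs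
  have hs2 : s ≤ 1 / 2 := by
    rw [hs, div_le_iff₀ (by positivity)]
    have : 0 ≤ (β - 1) * (β ^ 2 + β - 2) := mul_nonneg hb.le (by linarith only [hβ, mul_pos_of_neg_of_neg (Mathlib.Tactic.Linarith.sub_neg_of_lt hβ) (Mathlib.Tactic.Linarith.sub_neg_of_lt hβ)])
    linarith only [hB2, this, hβ, mul_nonneg_of_nonpos_of_nonpos (le_of_lt (Mathlib.Tactic.Linarith.sub_neg_of_lt hβ)) (Mathlib.Tactic.Linarith.sub_nonpos_of_le hB2)]
  have hβ3 : β ≤ 3 / 2 := by linarith only [h1, hB2, hβ, mul_pos_of_neg_of_neg (Mathlib.Tactic.Linarith.sub_neg_of_lt hβ) (Mathlib.Tactic.Linarith.sub_neg_of_lt hβ)]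
  have hηs : (β - 1) / β < s := by
    rw [hs]
    exact div_lt_div_of_pos_left hb (by positivity) (by linarith only [h1, hβ, mul_pos_of_neg_of_neg (Mathlib.Tactic.Linarith.sub_neg_of_lt hβ) (Mathlib.Tactic.Linarith.sub_neg_of_lt h1)])
  have hcM : β ^ (k + 1) * s + s * (β ^ (k + 1) - 1) / (β - 1) = 1 / β := by
    have e : β ^ (k + 1) * s + s * (β ^ (k + 1) - 1) / (β - 1) =
        s * (β ^ (k + 2) - 1) / (β - 1) := by
      field_simp
      ring
    rw [e, hs]
    field_simp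
  obtain ⟨f, hf1, hf2, hf3, hf4, hf5⟩ := example_gap (β := β) (η := (β - 1) / β) (ω := s) (s := s)
    (fun i => β ^ i * s + s * (β ^ i - 1) / (β - 1)) (k + 1) 0 hβ (by positivity) hηs le_rfl
    (by linarith only [hs2, hβ3]) (by simp) (fun i => closed_step hβ s s i) (Nat.zero_le _)
    (by
      rw [hcM]
      have e : (1 : ℝ) = 1 / β + (β - 1) / β := by field_simp; ring
      have h3 : 0 < (β - 1) / β := by positivity
      have h4 : β ^ (k + 1 + 1) * ((β - 1) / β) ≤ 2 * ((β - 1) / β) :=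
        mul_le_mul_of_nonneg_right h1.le h3.le
      linarith only [e, h4])
    (by
      rw [hcM]
      have e : β * (1 / β) = 1 := by field_simp
      rw [e]; simp)
    (by
      have e : β * ((β - 1) / β) = β - 1 := by field_simp
      simp only [pow_zero, zero_add, pow_one, e]
      simp
      linarith only [])
  exact ⟨f, (β - 1) / β, s, by positivity, hηs, by linarith only [h1, hB1, hs2], hf1, hf2, by linarith only [hs2, hβ3, hf3], hf3, hf4, hf5⟩

/-- The non-linear examples. -/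
theorem example_A {β η : ℝ} {k : ℕ} (hβ : 1 < β) (h1 : β ^ (k + 3) ≤ β + 1) (hη : 0 < η)
    (hη1 : η * (β + 1) < (β - 1) / β)
    (hη2 : β * (β - 1) * η ≤ (β ^ (k + 1) - 1) / (β ^ (k + 2) - 1)) :
    ∃ (f : ℝ → ℝ) (ω : ℝ), η < ω ∧ ω ≤ 1 ∧ ContinuousOn f (Icc 0 1) ∧ 0 ≤ f 0 ∧
      f 1 ≤ 2 ∧ 2 - f 1 = (β ^ (k + 1) - 1) / (β ^ (k + 2) - 1) - β * (β - 1) * η ∧
      (∀ x y, 0 ≤ x → x ≤ y → y ≤ 1 → β * (y - x) ≤ f y - f x) ∧
      ∀ (n : ℕ) (z : ℝ), 0 ≤ z → z ≤ η → (fun y => Int.fract (f y))^[n] z ∉ Ioo η ω := by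
  have hb : 0 < β - 1 := by linarith only [hβ]
  have hβ0 : 0 < β := by linarith
  have hB1 : 0 < β ^ (k + 2) - 1 := by
    have := one_lt_pow₀ hβ (show k + 2 ≠ 0 by omega); linarith only [this]
  obtain ⟨ω, hω⟩ : ∃ ω, ω = (β - 1) / β - β * η := ⟨_, rfl⟩
  obtain ⟨s, hs⟩ : ∃ s, s = 2 - β - ((β ^ (k + 1) - 1) / (β ^ (k + 2) - 1) - β * (β - 1) * η) :=
    ⟨_, rfl⟩
  have hηω : η < ω := by rw [hω]; linarith only [hη1]
  have hβω : β * ω = β - 1 - β ^ 2 * η := by rw [hω]; field_simp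
  have hsB : s * (β ^ (k + 2) - 1) = (β - 1) * (1 - β * η - β ^ (k + 2) * ω) := by
    have e : β ^ (k + 2) * ω = β ^ (k + 1) * (β - 1 - β ^ 2 * η) := by rw [← hβω]; ring
    rw [e, hs]
    field_simp
    ring
  have hcM : β ^ (k + 2) * ω + s * (β ^ (k + 2) - 1) / (β - 1) = 1 - β * η := by
    rw [hsB]
    field_simp
    ring
  have hωs : ω ≤ s := by
    refine le_of_mul_le_mul_right ?_ hB1
    rw [hsB]
    have e : β ^ (k + 3) = β * β ^ (k + 2) := by ring
    rw [e] at h1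
    have h3 := mul_le_mul_of_nonneg_right h1 (show 0 ≤ ω by linarith only [hη, hη1, hω])
    have h4 : 0 ≤ β * η := by positivity
    linarith only [hβω, h3, h4]
  have hc1 : β ^ 1 * ω + s * (β ^ 1 - 1) / (β - 1) = β * ω + s := by
    rw [pow_one]; field_simp
  obtain ⟨f, hf1, hf2, hf3, hf4, hf5⟩ := example_gap (β := β) (η := η) (ω := ω) (s := s)
    (fun i => β ^ i * ω + s * (β ^ i - 1) / (β - 1)) (k + 2) 1 hβ hη hηω hωs
    (by linarith only [hη2, hs]) (by simp) (fun i => closed_step hβ ω s i) (by omega)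
    (by
      rw [hcM]
      have := mul_le_mul_of_nonneg_right h1 hη.le
      have e : β ^ (k + 2 + 1) = β ^ (k + 3) := rfl
      rw [e]; linarith only [this])
    (by rw [hcM, hc1]; linarith only [hβω])
    (by
      have e : β ^ (1 + 1) = β ^ 2 := rfl
      rw [hc1, e]; linarith only [hβω])
  exact ⟨f, ω, hηω, by linarith only [hβ, hη2, hs, hωs], hf1, hf2, by linarith only [hη2, hs, hf3], by linarith only [hs, hf3], hf4, hf5⟩

end Pool.Agent.Work.MP_ea58a7_an.Hedge
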