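import Mathlib

-- merged part: Pool.Agent.Work.MP_ea58a7_an.Hedge.Sys
section
/-!
A closed set that is invariant under a mod one map of slope at least `β`: basic facts.
-/

set_option autoImplicit false

namespace Pool.Agent.Work.MP_ea58a7_an.Hedge

open Set

/-- An expanding lift `g` and a closed invariant set `X` with interior that is not everything. -/
structure Sys (β : ℝ) (g : ℝ → ℝ) (X : Set ℝ) : Prop where
  hβ : 1 < β
  cont : ContinuousOn g (Icc 0 1)
  g0 : 0 ≤ g 0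
  g1 : g 1 ≤ 2
  exp : ∀ x y, 0 ≤ x → x ≤ y → y ≤ 1 → β * (y - x) ≤ g y - g x
  closed : IsClosed X
  hL : ∀ x ∈ X, 0 < x → x < 1 → g x < 1 → g x ∈ X
  hR : ∀ x ∈ X, 0 < x → x < 1 → 1 < g x → g x - 1 ∈ X
  int : ∃ u v, 0 ≤ u ∧ u < v ∧ v ≤ 1 ∧ Ioo u v ⊆ X
  nall : ¬ Ioo (0 : ℝ) 1 ⊆ X

variable {β : ℝ} {g : ℝ → ℝ} {X : Set ℝ}

lemma Sys.mirror (h : Sys β g X) : Sys β (fun x => 2 - g (1 - x)) {x | 1 - x ∈ X} where
  hβ := h.hβ
  cont := by
    have hc : Continuous (fun x : ℝ => 1 - x) := continuous_const.sub continuous_id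
    refine continuousOn_const.sub (h.cont.comp hc.continuousOn ?_)
    intro x hx
    exact ⟨by linarith [hx.2], by linarith [hx.1]⟩
  g0 := by have := h.g1; simp only [sub_zero]; linarith
  g1 := by have := h.g0; simp only [sub_self]; linarith
  exp := by
    intro x y hx hxy hy
    have := h.exp (1 - y) (1 - x) (by linarith) (by linarith) (by linarith)
    have e : (1 - x) - (1 - y) = y - x := by ring
    rw [e] at this
    linarith
  closed := h.closed.preimage (continuous_const.sub continuous_id)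
  hL := by
    intro x hx h0 h1 hg
    have := h.hR (1 - x) hx (by linarith) (by linarith) (by linarith)
    have e : 1 - (2 - g (1 - x)) = g (1 - x) - 1 := by ring
    show 1 - (2 - g (1 - x)) ∈ X
    rw [e]; exact this
  hR := by
    intro x hx h0 h1 hg
    have := h.hL (1 - x) hx (by linarith) (by linarith) (by linarith)
    have e : 1 - (2 - g (1 - x) - 1) = g (1 - x) := by ring
    show 1 - (2 - g (1 - x) - 1) ∈ X
    rw [e]; exact this
  int := by
    obtain ⟨u, v, hu, huv, hv, hI⟩ := h.int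
    refine ⟨1 - v, 1 - u, by linarith, by linarith, by linarith, ?_⟩
    intro x hx
    exact hI ⟨by linarith [hx.2], by linarith [hx.1]⟩
  nall := by
    intro hI
    apply h.nall
    intro x hx
    have := hI (show 1 - x ∈ Ioo (0 : ℝ) 1 from ⟨by linarith [hx.2], by linarith [hx.1]⟩)
    simpa using this

lemma Sys.mono (h : Sys β g X) {x y : ℝ} (hx : 0 ≤ x) (hxy : x ≤ y) (hy : y ≤ 1) : g x ≤ g y := by
  have := h.exp x y hx hxy hy
  have hβ := h.hβ
  linarith only [hxy, this, hβ, mul_nonneg_of_nonpos_of_nonpos (Mathlib.Tactic.Linarith.sub_nonpos_of_le hxy) (le_of_lt (Mathlib.Tactic.Linarith.sub_neg_of_lt hβ))]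

lemma Sys.smono (h : Sys β g X) {x y : ℝ} (hx : 0 ≤ x) (hxy : x < y) (hy : y ≤ 1) : g x < g y := by
  have := h.exp x y hx hxy.le hy
  have hβ := h.hβ
  linarith only [hxy, this, hβ, mul_pos_of_neg_of_neg (Mathlib.Tactic.Linarith.sub_neg_of_lt hxy) (Mathlib.Tactic.Linarith.sub_neg_of_lt hβ)]

lemma Sys.gap (h : Sys β g X) : β ≤ g 1 - g 0 := by
  have := h.exp 0 1 le_rfl zero_le_one le_rfl
  linarith

lemma Sys.exC (h : Sys β g X) : ∃ C, 0 < C ∧ C < 1 ∧ g C = 1 := by
  have h1 := h.gap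
  have h2 := h.g0
  have h3 := h.g1
  have hβ := h.hβ
  obtain ⟨C, hC, hgC⟩ := intermediate_value_Ioo zero_le_one h.cont
    (show (1 : ℝ) ∈ Ioo (g 0) (g 1) from ⟨by linarith, by linarith⟩)
  exact ⟨C, hC.1, hC.2, hgC⟩

lemma Sys.imL (h : Sys β g X) {C : ℝ} (hC1 : C ≤ 1) (hC : g C = 1) {a b : ℝ} (ha : 0 ≤ a)
    (hab : a ≤ b) (hb : b ≤ C) (hI : Ioo a b ⊆ X) : Ioo (g a) (g b) ⊆ X := by
  intro y hy
  obtain ⟨x, hx, rfl⟩ := intermediate_value_Ioo hab
    (h.cont.mono (Icc_subset_Icc ha (hb.trans hC1))) hy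
  have := h.mono (ha.trans hab) hb hC1
  exact h.hL x (hI hx) (by linarith [hx.1]) (by linarith [hx.2]) (by linarith [hy.2])

lemma Sys.imR (h : Sys β g X) {C : ℝ} (hC0 : 0 ≤ C) (hC : g C = 1) {a b : ℝ} (ha : C ≤ a)
    (hab : a ≤ b) (hb : b ≤ 1) (hI : Ioo a b ⊆ X) : Ioo (g a - 1) (g b - 1) ⊆ X := by
  intro y hy
  obtain ⟨x, hx, hxy⟩ := intermediate_value_Ioo hab
    (h.cont.mono (Icc_subset_Icc (hC0.trans ha) hb))
    (show y + 1 ∈ Ioo (g a) (g b) from ⟨by linarith [hy.1], by linarith [hy.2]⟩)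
  have h1 := h.mono hC0 ha (hab.trans hb)
  have := h.hR x (hI hx) (by linarith [hx.1]) (by linarith [hx.2]) (by linarith [hy.1])
  have e : g x - 1 = y := by linarith
  rwa [e] at this

/-- If all intervals of `X` around `C` are short then all intervals of `X` are short. -/
lemma Sys.grow (h : Sys β g X) {C ρ : ℝ} (hC0 : 0 ≤ C) (hC1 : C ≤ 1) (hC : g C = 1) (hρ : 0 ≤ ρ)
    (hs : ∀ a b, 0 ≤ a → a < C → C < b → b ≤ 1 → Ioo a b ⊆ X → b - a ≤ ρ) :
    ∀ a b, 0 ≤ a → a ≤ b → b ≤ 1 → Ioo a b ⊆ X → b - a ≤ ρ := by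
  have hβ := h.hβ
  have key : ∀ k : ℕ, ∀ a b, 0 ≤ a → a ≤ b → b ≤ 1 → Ioo a b ⊆ X →
      b - a ≤ ρ ∨ β ^ k * (b - a) ≤ 1 := by
    intro k
    induction k with
    | zero => intro a b ha _ hb _; right; simp only [pow_zero, one_mul]; linarith
    | succ k ih =>
      intro a b ha hab hb hI
      have hk : 0 < β ^ k := by positivity
      have he := h.exp a b ha hab hb
      have fin : ∀ L : ℝ, β * (b - a) ≤ L → (L ≤ ρ ∨ β ^ k * L ≤ 1) →
          b - a ≤ ρ ∨ β ^ (k + 1) * (b - a) ≤ 1 := by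
        intro L hL hor
        rcases hor with h1 | h1
        · left; linarith only [hL, h1, hβ, hab, mul_nonneg_of_nonpos_of_nonpos (le_of_lt (Mathlib.Tactic.Linarith.sub_neg_of_lt hβ)) (Mathlib.Tactic.Linarith.sub_nonpos_of_le hab)]
        · right
          calc β ^ (k + 1) * (b - a) = β ^ k * (β * (b - a)) := by ring
            _ ≤ β ^ k * L := mul_le_mul_of_nonneg_left hL hk.le
            _ ≤ 1 := h1
      by_cases hbC : b ≤ C
      · have h1 := h.mono le_rfl ha (hab.trans hb)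
        have h2 := h.mono (ha.trans hab) hbC hC1
        have h3 := h.g0
        exact fin _ he (ih (g a) (g b) (by linarith) (h.mono ha hab hb) (by linarith)
          (h.imL hC1 hC ha hab hbC hI))
      · by_cases haC : C ≤ a
        · have h1 := h.mono hC0 haC (hab.trans hb)
          have h2 := h.mono (ha.trans hab) hb le_rfl
          have h3 := h.g1
          have h4 := h.mono ha hab hb
          refine fin (g b - 1 - (g a - 1)) (by linarith) (ih (g a - 1) (g b - 1) (by linarith)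
            (by linarith) (by linarith) (h.imR hC0 hC haC hab hb hI))
        · left
          exact hs a b ha (not_le.1 haC) (not_le.1 hbC) hb hI
  intro a b ha hab hb hI
  by_contra hlt
  push Not at hlt
  have hpos : 0 < b - a := by linarith
  obtain ⟨k, hk⟩ := pow_unbounded_of_one_lt (1 / (b - a)) hβ
  rcases key k a b ha hab hb hI with h1 | h1
  · linarith
  · rw [div_lt_iff₀ hpos] at hk
    linarith

lemma Sys.memL (h : Sys β g X) {a b : ℝ} (hab : a < b) (hI : Ioo a b ⊆ X) : a ∈ X := by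
  have := closure_mono hI
  rw [closure_Ioo hab.ne, h.closed.closure_eq] at this
  exact this ⟨le_rfl, hab.le⟩

lemma Sys.memR (h : Sys β g X) {a b : ℝ} (hab : a < b) (hI : Ioo a b ⊆ X) : b ∈ X := by
  have := closure_mono hI
  rw [closure_Ioo hab.ne, h.closed.closure_eq] at this
  exact this ⟨hab.le, le_rfl⟩

/-- An initial interval of `X` ends before `g 0`. -/
lemma Sys.init (h : Sys β g X) {w : ℝ} (hw : 0 < w) (hI : Ioo 0 w ⊆ X) : w < g 0 := by
  obtain ⟨C, hC0, hC1, hC⟩ := h.exC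
  have hβ := h.hβ
  have hg0 := h.g0
  have step : ∀ w, g 0 < w → Ioo 0 w ⊆ X → Ioo 0 (β * w) ⊆ X := by
    intro w hw hI
    by_cases hwC : w ≤ C
    · have h1 := h.imL hC1.le hC le_rfl (by linarith) hwC hI
      have h2 := h.exp 0 w le_rfl (by linarith) (by linarith)
      intro y hy
      by_cases hyw : y < w
      · exact hI ⟨hy.1, hyw⟩
      · exact h1 ⟨by linarith, by linarith [hy.2]⟩
    · exfalso
      apply h.nall
      have h1 := h.imL hC1.le hC le_rfl hC0.le le_rfl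
        ((Ioo_subset_Ioo_right (not_le.1 hwC).le).trans hI)
      intro y hy
      by_cases hyw : y < w
      · exact hI ⟨hy.1, hyw⟩
      · exact h1 ⟨by linarith, by linarith [hy.2]⟩
  have weak : ∀ w, g 0 < w → ¬ Ioo 0 w ⊆ X := by
    intro w hw hI
    have hw0 : 0 < w := by linarith
    have all : ∀ k : ℕ, Ioo 0 (β ^ k * w) ⊆ X := by
      intro k
      induction k with
      | zero => simpa using hI
      | succ k ih =>
        have hk : 1 ≤ β ^ k := one_le_pow₀ hβ.le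
        have := step (β ^ k * w) (by linarith only [hC0, hw, hC1, hg0, hk, mul_pos_of_neg_of_neg (Mathlib.Tactic.Linarith.sub_neg_of_lt hC0) (Mathlib.Tactic.Linarith.sub_neg_of_lt hw), mul_pos_of_neg_of_neg (Mathlib.Tactic.Linarith.sub_neg_of_lt hC1) (Mathlib.Tactic.Linarith.sub_neg_of_lt hw), mul_nonneg_of_nonpos_of_nonpos (Mathlib.Tactic.Linarith.sub_nonpos_of_le hg0) (Mathlib.Tactic.Linarith.sub_nonpos_of_le hk), mul_nonneg_of_nonpos_of_nonpos (le_of_lt (Mathlib.Tactic.Linarith.sub_neg_of_lt hw)) (Mathlib.Tactic.Linarith.sub_nonpos_of_le hk)]) ih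
        have e : β ^ (k + 1) * w = β * (β ^ k * w) := by ring
        rw [e]; exact this
    obtain ⟨k, hk⟩ := pow_unbounded_of_one_lt (1 / w) hβ
    rw [div_lt_iff₀ hw0] at hk
    exact h.nall ((Ioo_subset_Ioo_right hk.le).trans (all k))
  by_contra hlt
  push Not at hlt
  rcases hlt.lt_or_eq with h1 | h1
  · exact weak w h1 hI
  · have hm0 : 0 < min w C := lt_min hw hC0
    have hm := h.imL hC1.le hC le_rfl hm0.le (min_le_right w C)
      ((Ioo_subset_Ioo_right (min_le_left w C)).trans hI)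
    have hlt := h.smono le_rfl hm0 ((min_le_right w C).trans hC1.le)
    apply weak _ hlt
    intro y hy
    rcases lt_trichotomy y w with h2 | h2 | h2
    · exact hI ⟨hy.1, h2⟩
    · rw [h2]; exact h.memR hw hI
    · exact hm ⟨by linarith, hy.2⟩

/-- A final interval of `X` starts after `g 1 - 1`. -/
lemma Sys.fin (h : Sys β g X) {w : ℝ} (hw : w < 1) (hI : Ioo w 1 ⊆ X) : g 1 - 1 < w := by
  have := h.mirror.init (w := 1 - w) (by linarith) (by
    intro x hx
    exact hI ⟨by linarith [hx.2], by linarith [hx.1]⟩)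
  simp only [sub_zero] at this
  linarith

/-- The maximal interval `(E, F)` of `X` around the discontinuity `C`. -/
structure Jdat (g : ℝ → ℝ) (X : Set ℝ) (C E F : ℝ) : Prop where
  gC : g C = 1
  E0 : 0 ≤ E
  EC : E < C
  CF : C < F
  F1 : F ≤ 1
  sub : Ioo E F ⊆ X
  maxE : ∀ a b, 0 ≤ a → a < E → Ioo a b ⊆ X → b < E
  maxF : ∀ a b, F < b → b ≤ 1 → Ioo a b ⊆ X → F < a

lemma Sys.exJ (h : Sys β g X) : ∃ C E F, Jdat g X C E F := by
  obtain ⟨C, hC0, hC1, hC⟩ := h.exC
  have hex : ∃ a b, 0 ≤ a ∧ a < C ∧ C < b ∧ b ≤ 1 ∧ Ioo a b ⊆ X := by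
    by_contra hno
    obtain ⟨u, v, hu, huv, hv, hI⟩ := h.int
    have := h.grow hC0.le hC1.le hC le_rfl
      (fun a b ha haC hCb hb hI => absurd ⟨a, b, ha, haC, hCb, hb, hI⟩ hno) u v hu huv.le hv hI
    linarith
  obtain ⟨a0, b0, ha0, ha0C, hCb0, hb0, hI0⟩ := hex
  set A : Set ℝ := {a | 0 ≤ a ∧ Ioo a C ⊆ X} with hA
  set B : Set ℝ := {b | b ≤ 1 ∧ Ioo C b ⊆ X} with hB
  have ha0A : a0 ∈ A := ⟨ha0, (Ioo_subset_Ioo_right hCb0.le).trans hI0⟩
  have hb0B : b0 ∈ B := ⟨hb0, (Ioo_subset_Ioo_left ha0C.le).trans hI0⟩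
  have hAb : BddBelow A := ⟨0, fun a ha => ha.1⟩
  have hBb : BddAbove B := ⟨1, fun b hb => hb.1⟩
  have hEC : sInf A < C := lt_of_le_of_lt (csInf_le hAb ha0A) ha0C
  have hCF : C < sSup B := lt_of_lt_of_le hCb0 (le_csSup hBb hb0B)
  have hsE : Ioo (sInf A) C ⊆ X := by
    intro y hy
    obtain ⟨a, ha, hay⟩ := exists_lt_of_csInf_lt ⟨a0, ha0A⟩ hy.1
    exact ha.2 ⟨hay, hy.2⟩
  have hsF : Ioo C (sSup B) ⊆ X := by
    intro y hy
    obtain ⟨b, hb, hby⟩ := exists_lt_of_lt_csSup ⟨b0, hb0B⟩ hy.2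
    exact hb.2 ⟨hy.1, hby⟩
  refine ⟨C, sInf A, sSup B, hC, le_csInf ⟨a0, ha0A⟩ (fun a ha => ha.1), hEC, hCF,
    csSup_le ⟨b0, hb0B⟩ (fun b hb => hb.1), ?_, ?_, ?_⟩
  · intro y hy
    rcases lt_trichotomy y C with h2 | h2 | h2
    · exact hsE ⟨hy.1, h2⟩
    · rw [h2]; exact hI0 ⟨ha0C, hCb0⟩
    · exact hsF ⟨h2, hy.2⟩
  · intro a b ha haE hI
    by_contra hb
    push Not at hb
    have : a ∈ A := by
      refine ⟨ha, ?_⟩
      intro y hy
      rcases lt_trichotomy y (sInf A) with h2 | h2 | h2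
      · exact hI ⟨hy.1, by linarith⟩
      · rw [h2]; exact h.memL hEC hsE
      · exact hsE ⟨h2, hy.2⟩
    have := csInf_le hAb this
    linarith
  · intro a b hFb hb hI
    by_contra ha
    push Not at ha
    have : b ∈ B := by
      refine ⟨hb, ?_⟩
      intro y hy
      rcases lt_trichotomy y (sSup B) with h2 | h2 | h2
      · exact hsF ⟨hy.1, h2⟩
      · rw [h2]; exact h.memR hCF hsF
      · exact hI ⟨by linarith, hy.2⟩
    have := le_csSup hBb this
    linarith

/-- Orbits that stay on the left branch. -/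
lemma Sys.orbit (h : Sys β g X) {C : ℝ} (hC1 : C ≤ 1) (hC : g C = 1) {x y : ℝ} (hx : 0 ≤ x)
    (hxy : x ≤ y) (k : ℕ) (hk : ∀ j < k, g^[j] y ≤ C) :
    0 ≤ g^[k] x ∧ β ^ k * (y - x) ≤ g^[k] y - g^[k] x ∧
      (Ioo x y ⊆ X → Ioo (g^[k] x) (g^[k] y) ⊆ X) := by
  have hβ := h.hβ
  induction k with
  | zero => exact ⟨hx, by simp, fun hI => hI⟩
  | succ k ih =>
    obtain ⟨h1, h2, h3⟩ := ih (fun j hj => hk j (Nat.lt_succ_of_lt hj))
    have h4 := hk k (Nat.lt_succ_self k)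
    have hk0 : 0 ≤ β ^ k * (y - x) := mul_nonneg (by positivity) (by linarith)
    have h5 : g^[k] x ≤ g^[k] y := by linarith
    simp only [Function.iterate_succ_apply']
    refine ⟨h.g0.trans (h.mono le_rfl h1 (by linarith)), ?_,
      fun hI => h.imL hC1 hC h1 h5 h4 (h3 hI)⟩
    have h6 := h.exp _ _ h1 h5 (h4.trans hC1)
    calc β ^ (k + 1) * (y - x) = β * (β ^ k * (y - x)) := by ring
      _ ≤ β * (g^[k] y - g^[k] x) := mul_le_mul_of_nonneg_left h2 (by linarith)
      _ ≤ _ := h6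

end Pool.Agent.Work.MP_ea58a7_an.Hedge
end

-- merged part: Pool.Agent.Work.MP_ea58a7_an.Hedge.Bound
section
/-!
The two lower bounds for `g 1 - 1`.
-/

set_option autoImplicit false

namespace Pool.Agent.Work.MP_ea58a7_an.Hedge

open Set

variable {β : ℝ} {g : ℝ → ℝ} {X : Set ℝ} {C E F : ℝ}

lemma Jdat.all (J : Jdat g X C E F) (h : Sys β g X) {a b : ℝ} (ha : 0 ≤ a) (hab : a ≤ b)
    (hb : b ≤ 1) (hI : Ioo a b ⊆ X) : b - a ≤ F - E := by
  have h1 := J.E0; have h2 := J.EC; have h3 := J.CF; have h4 := J.F1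
  refine h.grow (C := C) (by linarith) (by linarith) J.gC (by linarith) ?_ a b ha hab hb hI
  intro a b ha haC hCb hb hI
  have h5 : E ≤ a := by
    by_contra hlt
    have := J.maxE a b ha (not_le.1 hlt) hI
    linarith
  have h6 : b ≤ F := by
    by_contra hlt
    have := J.maxF a b (not_le.1 hlt) hb hI
    linarith
  linarith

/-- An interval of `X` lies in `(E, F)` or is shorter by the factor `β`. -/
lemma Jdat.alt (J : Jdat g X C E F) (h : Sys β g X) {a b : ℝ} (ha : 0 ≤ a) (hab : a ≤ b)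
    (hb : b ≤ 1) (hI : Ioo a b ⊆ X) : β * (b - a) ≤ F - E ∨ (E ≤ a ∧ b ≤ F) := by
  have h1 := J.E0; have h2 := J.EC; have h3 := J.CF; have h4 := J.F1
  have hC0 : 0 ≤ C := by linarith
  have hC1 : C ≤ 1 := by linarith
  have hC := J.gC
  have he := h.exp a b ha hab hb
  have hm := h.mono ha hab hb
  by_cases hbC : b ≤ C
  · left
    have h5 := h.mono le_rfl ha (hab.trans hb)
    have h6 := h.mono (ha.trans hab) hbC hC1
    have h7 := h.g0
    have := J.all h (a := g a) (b := g b) (by linarith) hm (by linarith)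
      (h.imL hC1 hC ha hab hbC hI)
    linarith
  · by_cases haC : C ≤ a
    · left
      have h5 := h.mono hC0 haC (hab.trans hb)
      have h6 := h.mono (ha.trans hab) hb le_rfl
      have h7 := h.g1
      have := J.all h (a := g a - 1) (b := g b - 1) (by linarith) (by linarith) (by linarith)
        (h.imR hC0 hC haC hab hb hI)
      linarith
    · right
      constructor
      · by_contra hlt
        have := J.maxE a b ha (not_le.1 hlt) hI
        linarith [not_le.1 hbC]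
      · by_contra hlt
        have := J.maxF a b (not_le.1 hlt) hb hI
        linarith [not_le.1 haC]

/-- Upper estimate along the left branch, measured from the end point `1`. -/
lemma boundA_aux (h : Sys β g X) (hC1 : C ≤ 1) (hC : g C = 1) {ν : ℝ} (hν : 0 ≤ ν) (k : ℕ)
    (hk : ∀ j < k, g^[j] ν ≤ C) :
    (β - 1) * β ^ k * (1 - ν) ≤ (β - 1) * (1 - g^[k] ν) + (1 - C) * β * (β ^ k - 1) := by
  have hβ := h.hβ
  induction k with
  | zero => simp
  | succ k ih =>
    have hk' : ∀ j < k, g^[j] ν ≤ C := fun j hj => hk j (Nat.lt_succ_of_lt hj)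
    have h1 := ih hk'
    have h2 := (h.orbit hC1 hC hν le_rfl k hk').1
    have h3 := h.exp _ _ h2 (hk k (Nat.lt_succ_self k)) hC1
    rw [hC] at h3
    rw [Function.iterate_succ_apply']
    have h4 := mul_le_mul_of_nonneg_left h1 (show 0 ≤ β by linarith)
    have h5 := mul_le_mul_of_nonneg_left h3 (show 0 ≤ β - 1 by linarith)
    rw [pow_succ]
    linarith only [h4, h5]

/-- Upper estimate along the left branch below `E`. -/
lemma boundB_aux (h : Sys β g X) (hC1 : C ≤ 1) (hC : g C = 1) (hEC : E ≤ C) {P : ℝ} (hP : 0 ≤ P)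
    (k : ℕ) (hk : ∀ j < k, g^[j] P ≤ E) :
    (β - 1) * g^[k] P ≤ (β - 1) * β ^ k * P + (g E - β * E) * (β ^ k - 1) := by
  have hβ := h.hβ
  induction k with
  | zero => simp
  | succ k ih =>
    have hk' : ∀ j < k, g^[j] P ≤ E := fun j hj => hk j (Nat.lt_succ_of_lt hj)
    have h1 := ih hk'
    have h2 := (h.orbit hC1 hC hP le_rfl k (fun j hj => (hk' j hj).trans hEC)).1
    have h3 := h.exp _ _ h2 (hk k (Nat.lt_succ_self k)) (hEC.trans hC1)
    rw [Function.iterate_succ_apply']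
    have h4 := mul_le_mul_of_nonneg_left h1 (show 0 ≤ β by linarith)
    have h5 := mul_le_mul_of_nonneg_left h3 (show 0 ≤ β - 1 by linarith)
    rw [pow_succ]
    linarith only [h4, h5]

lemma boundB_alg {β M ν P s E : ℝ} (hβ : 1 < β) (hM : 1 ≤ M) (hPs : P ≤ s)
    (h1 : (β - 1) * E ≤ (β - 1) * M * P + s * (M - 1))
    (h2 : P + β * (1 - (s + β * E)) ≤ ν) (h3 : β - 1 + s ≤ ν) :
    (β - 1) * (β * (M * β ^ 2) - β + 1) ≤ β * (M * β ^ 2 - 1) * ν := by
  have hb : 0 < β - 1 := by linarith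
  have hβ2 : 1 ≤ β ^ 2 := by linarith only [hβ, mul_pos_of_neg_of_neg (Mathlib.Tactic.Linarith.sub_neg_of_lt hβ) (Mathlib.Tactic.Linarith.sub_neg_of_lt hβ)]
  have hB : β ^ 2 ≤ M * β ^ 2 := by linarith only [hM, mul_nonneg_of_nonpos_of_nonpos (Mathlib.Tactic.Linarith.sub_nonpos_of_le (sq_nonneg β)) (Mathlib.Tactic.Linarith.sub_nonpos_of_le hM)]
  have e1 := mul_le_mul_of_nonneg_left h2 hb.le
  have e2 := mul_le_mul_of_nonneg_left h1 (show 0 ≤ β ^ 2 by positivity)
  have e3 := mul_le_mul_of_nonneg_left hPs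
    (show 0 ≤ (β - 1) * (M * β ^ 2 - 1) from mul_nonneg hb.le (by linarith))
  have hpos : 0 ≤ β * (M * β ^ 2) - 2 * β + 1 := by linarith only [hβ, hB, hβ2, mul_pos_of_neg_of_neg (Mathlib.Tactic.Linarith.sub_neg_of_lt hβ) (Mathlib.Tactic.Linarith.sub_neg_of_lt hβ), mul_nonneg_of_nonpos_of_nonpos (le_of_lt (Mathlib.Tactic.Linarith.sub_neg_of_lt hβ)) (Mathlib.Tactic.Linarith.sub_nonpos_of_le hβ2), mul_nonneg_of_nonpos_of_nonpos (le_of_lt (Mathlib.Tactic.Linarith.sub_neg_of_lt hβ)) (Mathlib.Tactic.Linarith.sub_nonpos_of_le hB)]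
  have e4 := mul_le_mul_of_nonneg_left h3 hpos
  linarith only [e1, e2, e3, e4]

theorem Sys.core (h : Sys β g X) : ∃ m : ℕ,
    β ^ (m + 1) * (β - 1) ≤ (g 1 - 1) * (β ^ (m + 2) - 1) ∧
    (β ^ (m + 3) ≤ β + 1 ∨ (β ^ (m + 2) < 2 ∧
      (β - 1) * (β * β ^ (m + 2) - β + 1) ≤ β * (β ^ (m + 2) - 1) * (g 1 - 1))) := by
  classical
  obtain ⟨C, E, F, J⟩ := h.exJ
  have hβ := h.hβ
  have hE0 := J.E0; have hEC := J.EC; have hCF := J.CF; have hF1 := J.F1
  have hC := J.gC
  have hC0 : 0 ≤ C := by linarith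
  have hC1 : C ≤ 1 := by linarith
  have hg0 := h.g0
  have hg1 := h.g1
  have hgap := h.gap
  obtain ⟨ω, hω⟩ : ∃ ω, ω = g 0 := ⟨_, rfl⟩
  obtain ⟨ν, hν⟩ : ∃ ν, ν = g 1 - 1 := ⟨_, rfl⟩
  obtain ⟨η, hη⟩ : ∃ η, η = g F - 1 := ⟨_, rfl⟩
  obtain ⟨Y, hY⟩ : ∃ Y, Y = g E := ⟨_, rfl⟩
  obtain ⟨t, ht⟩ : ∃ t, t = g Y - 1 := ⟨_, rfl⟩
  rw [← hν]
  have hων : ω < ν := by linarith
  -- the two images of the halves of `J`
  have hηp : β * (F - C) ≤ η := by have := h.exp C F hC0 hCF.le hF1; linarith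
  have hη0 : 0 < η := by nlinarith only [hηp, hβ, hCF]
  have hIη : Ioo 0 η ⊆ X := by
    have := h.imR hC0 hC le_rfl hCF.le hF1 ((Ioo_subset_Ioo_left hEC.le).trans J.sub)
    rwa [hC, sub_self, ← hη] at this
  have hηω : η < ω := hω ▸ h.init hη0 hIη
  have hYq : β * (C - E) ≤ 1 - Y := by have := h.exp E C hE0 hEC.le hC1; linarith
  have hY1 : Y < 1 := by nlinarith only [hYq, hβ, hEC]
  have hIY : Ioo Y 1 ⊆ X := by
    have := h.imL hC1 hC hE0 hEC.le le_rfl ((Ioo_subset_Ioo_right hCF.le).trans J.sub)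
    rwa [hC, ← hY] at this
  have hνY : ν < Y := hν ▸ h.fin hY1 hIY
  have hEpos : 0 < E := by
    rcases hE0.lt_or_eq with h1 | h1
    · exact h1
    · exfalso; rw [← h1] at hY; linarith
  have hF1' : F < 1 := by
    rcases hF1.lt_or_eq with h1 | h1
    · exact h1
    · exfalso; rw [h1] at hη; linarith
  have hηE : η < E := J.maxE 0 η le_rfl hEpos hIη
  have hFY : F < Y := J.maxF Y 1 hF1' le_rfl hIY
  have htν : β * (1 - Y) ≤ ν - t := by have := h.exp Y 1 (by linarith) hY1.le le_rfl; linarith only [hν, ht, this]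
  have hηt : β * (Y - F) ≤ t - η := by
    have := h.exp F Y (by linarith) hFY.le hY1.le; linarith only [hη, ht, this]
  have ht0 : 0 ≤ t := by nlinarith only [hηt, hβ, hFY, hη0]
  have htν' : t ≤ ν := by nlinarith only [htν, hβ, hY1]
  have hIt : Ioo t ν ⊆ X := by
    have := h.imR hC0 hC (by linarith only [hCF, hFY] : C ≤ Y) hY1.le le_rfl hIY
    rwa [← ht, ← hν] at this
  have hν0 : 0 < ν := by linarith only [hβ, hg0, hgap, hν]
  -- the exit time
  have hex : ∃ m : ℕ, E < g^[m] ν := by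
    by_contra hno
    push Not at hno
    obtain ⟨k, hk⟩ := pow_unbounded_of_one_lt (E / ν) hβ
    rw [div_lt_iff₀ hν0] at hk
    obtain ⟨h1, h2, -⟩ := h.orbit hC1 hC le_rfl hν0.le k (fun j _ => (hno j).trans hEC.le)
    have := hno k
    rw [sub_zero] at h2
    linarith only [hk, h1, h2, this]
  obtain ⟨m, hm, hlt⟩ : ∃ m : ℕ, E < g^[m] ν ∧ ∀ j < m, g^[j] ν ≤ E :=
    ⟨Nat.find hex, Nat.find_spec hex, fun j hj => not_lt.1 (Nat.find_min hex hj)⟩
  have hltC : ∀ j < m, g^[j] ν ≤ C := fun j hj => (hlt j hj).trans hEC.le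
  have hM : 1 ≤ β ^ m := one_le_pow₀ hβ.le
  -- comparison of orbits below `ν`
  have hcmp : ∀ x, 0 ≤ x → x ≤ ν → ∀ j ≤ m, g^[j] x ≤ g^[j] ν := by
    intro x hx hxν j hj
    have := (h.orbit hC1 hC hx hxν j (fun i hi => hltC i (lt_of_lt_of_le hi hj))).2.1
    have h2 : 0 ≤ β ^ j * (ν - x) := mul_nonneg (by positivity) (by linarith only [hxν])
    linarith only [this, h2]
  have hcmpE : ∀ x, 0 ≤ x → x ≤ ν → ∀ j < m, g^[j] x ≤ E :=
    fun x hx hxν j hj => (hcmp x hx hxν j hj.le).trans (hlt j hj)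
  have hit : ∀ j : ℕ, g^[j + 1] 0 = g^[j] ω := fun j => by rw [Function.iterate_succ_apply, hω]
  have ham : g^[m] 0 < E := by
    rcases m with _ | m
    · exact hEpos
    · rw [hit]
      have h1 := (h.orbit hC1 hC (by linarith only [hη0, hηω] : 0 ≤ ω) hων.le m
        (fun i hi => hltC i (Nat.lt_succ_of_lt hi))).2.1
      have h2 : 0 < β ^ m * (ν - ω) := mul_pos (by positivity) (by linarith only [hβ, hgap, hω, hν])
      have := hlt m (Nat.lt_succ_self m)
      linarith only [h1, h2, this]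
  have hbm : g^[m] η < E := by
    obtain ⟨h1, -, h3⟩ := h.orbit hC1 hC le_rfl hη0.le m
      (fun j hj => (hcmpE η hη0.le (by linarith only [hβ, hgap, hω, hν, hηω]) j hj).trans hEC.le)
    exact J.maxE _ _ h1 ham (h3 hIη)
  have hbC : ∀ j < m + 1, g^[j] η ≤ C := by
    intro j hj
    rcases (Nat.lt_succ_iff.1 hj).lt_or_eq with h1 | h1
    · exact (hcmpE η hη0.le (by linarith only [hβ, hgap, hω, hν, hηω]) j h1).trans hEC.le
    · rw [h1]; linarith only [hEC, hbm]
  obtain ⟨ha0, haL, haI⟩ := h.orbit hC1 hC le_rfl hη0.le (m + 1) hbC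
  replace haI := haI hIη
  obtain ⟨hb0, hbL, hbI⟩ := h.orbit hC1 hC ht0 htν' m hltC
  replace hbI := hbI hIt
  rw [hit] at ha0 haL haI
  obtain ⟨M, hMdef⟩ : ∃ M, M = β ^ m := ⟨_, rfl⟩
  have e1 : β ^ (m + 1) = M * β := by rw [hMdef]; ring
  have e2 : β ^ (m + 2) = M * β ^ 2 := by rw [hMdef]; ring
  have e3 : β ^ (m + 3) = M * β ^ 2 * β := by rw [hMdef]; ring
  have hM0 : 0 < M := by rw [hMdef]; positivity
  have hM1 : 1 ≤ M := hMdef ▸ hM
  have hβ2 : 1 < β ^ 2 := by nlinarith only [hβ]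
  have hB1 : 1 < M * β ^ 2 := by nlinarith only [hβ2, hM1]
  have hL1 : M * β ^ 2 * (C - E) ≤ g^[m] ν - g^[m] t := by
    rw [← hMdef] at hbL
    have h1 : β * (β * (C - E)) ≤ ν - t :=
      (mul_le_mul_of_nonneg_left hYq (by linarith only [hβ, hEC, hCF, hη0, hY1, hηE, hFY])).trans htν
    have h2 := mul_le_mul_of_nonneg_left h1 hM0.le
    linarith only [h2, hbL]
  have hL2 : M * β ^ 2 * (F - C) ≤ g^[m + 1] η - g^[m] ω := by
    rw [e1, sub_zero] at haL
    have h2 := mul_le_mul_of_nonneg_left hηp (show 0 ≤ M * β by positivity)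
    linarith only [h2, haL]
  have hq : C - E < M * β ^ 2 * (C - E) := by nlinarith only [hB1, hEC]
  have hp : F - C < M * β ^ 2 * (F - C) := by nlinarith only [hB1, hCF]
  have hνm1 : g^[m] ν ≤ 1 := by
    rcases m with _ | m
    · show ν ≤ 1
      linarith only [hg1, hν]
    · rw [Function.iterate_succ_apply', ← hC]
      exact h.mono (h.orbit hC1 hC hν0.le le_rfl m
        (fun j hj => hltC j (Nat.lt_succ_of_lt hj))).1 (hltC m (Nat.lt_succ_self m)) hC1
  have hbm1 : g^[m + 1] η ≤ 1 := by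
    rw [Function.iterate_succ_apply', ← hC]
    exact h.mono (h.orbit hC1 hC hη0.le le_rfl m
      (fun j hj => hbC j (Nat.lt_succ_of_lt hj))).1 (by linarith only [hEC, hbm]) hC1
  have hνC : C ≤ g^[m] ν := by
    by_contra hlt'
    push Not at hlt'
    have h1 : E ≤ g^[m] t := by
      by_contra h2
      have := J.maxE _ _ hb0 (not_le.1 h2) hbI
      linarith only [hm, this]
    linarith only [hL1, hq, hlt', h1]
  refine ⟨m, ?_, ?_⟩
  · have h1 := boundA_aux h hC1 hC hν0.le m hltC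
    rw [← hMdef] at h1
    have h2 : β * (1 - C) ≤ ν := by have := h.exp C 1 hC0 hC1 le_rfl; linarith only [hηp, htν, hηt]
    rw [e1, e2]
    have h3 := mul_le_mul_of_nonneg_left hνC (show 0 ≤ β - 1 by linarith only [hβ])
    have h4 : (β - 1) * M * (1 - ν) ≤ (1 - C) * (M * β - 1) := by
      have h7 : (β - 1) * (1 - g^[m] ν) ≤ (β - 1) * (1 - C) := by linarith only [h3]
      linarith only [h1, h7]
    have h5 := mul_le_mul_of_nonneg_left h4 (show 0 ≤ β by linarith only [hβ, hEC, hCF, hη0, hY1, hηE, hFY])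
    have h6 := mul_le_mul_of_nonneg_left h2 (show 0 ≤ M * β - 1 by nlinarith only [hM1, hβ])
    linarith only [h5, h6]
  · rw [e2, e3]
    have hρ : 0 < F - E := by linarith only [hEC, hCF]
    have hA1 := J.all h hb0 (by linarith only [hEC, hL1, hq]) hνm1 hbI
    have hA2 := J.all h ha0 (by linarith only [hCF, hL2, hp]) hbm1 haI
    have fin : ∀ u v : ℝ, u + v = F - E → β * (M * β ^ 2 * u) ≤ F - E → M * β ^ 2 * v ≤ F - E →
        M * β ^ 2 * β ≤ β + 1 := by
      intro u v huv h1 h2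
      have h3 := mul_le_mul_of_nonneg_left h2 (show 0 ≤ β by linarith only [hβ])
      have h4 : M * β ^ 2 * β * (F - E) ≤ (β + 1) * (F - E) := by
        rw [← huv] at h1 h3 ⊢
        linarith only [h1, h3]
      exact le_of_mul_le_mul_right h4 hρ
    rcases J.alt h hb0 (by linarith only [hEC, hL1, hq]) hνm1 hbI with h1 | ⟨h1, h1'⟩
    · left
      exact fin (C - E) (F - C) (by ring)
        ((mul_le_mul_of_nonneg_left hL1 (by linarith only [hβ])).trans h1) (hL2.trans hA2)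
    rcases J.alt h ha0 (by linarith only [hCF, hL2, hp]) hbm1 haI with h2 | ⟨h2, h2'⟩
    · left
      exact fin (F - C) (C - E) (by ring)
        ((mul_le_mul_of_nonneg_left hL2 (by linarith only [hβ, hEC, hCF, hη0, hY1, hηE, hFY])).trans h2) (hL1.trans hA1)
    right
    have hω0 : 0 ≤ ω := by linarith only [hη0, hηω]
    constructor
    · by_contra hB
      push Not at hB
      have k1 : 2 * (C - E) ≤ M * β ^ 2 * (C - E) := mul_le_mul_of_nonneg_right hB (by linarith only [hEC])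
      have k2 : 2 * (F - C) ≤ M * β ^ 2 * (F - C) := mul_le_mul_of_nonneg_right hB (by linarith only [hCF])
      have q1 : g^[m] t = E := by linarith only [h1, hL1, hL2, hA2, h1', k1, k2]
      have q2 : g^[m] ω = E := by linarith only [h2, hL1, hL2, hA1, h2', k1, k2]
      have q3 : g^[m + 1] η = F := by linarith only [hL1, hL2, hA1, h2, k1, k2, h2']
      have htω : t ≤ ω := by
        by_contra hlt'
        push Not at hlt'
        have k3 := (h.orbit hC1 hC hω0 hlt'.le m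
          (fun j hj => (hcmpE t ht0 htν' j hj).trans hEC.le)).2.1
        have k4 : 0 < β ^ m * (t - ω) := mul_pos (by positivity) (by linarith only [hlt'])
        linarith only [hL1, hL2, hA2, h1', h2, k1, k2, k3, k4]
      have k5 := (h.orbit hC1 hC hη0.le hηω.le (m + 1) (by
        intro j hj
        rcases (Nat.lt_succ_iff.1 hj).lt_or_eq with h3 | h3
        · exact (hcmpE ω hω0 hων.le j h3).trans hEC.le
        · rw [h3]; linarith only [hL2, hp, h2'])).2.1
      rw [q3, Function.iterate_succ_apply', q2, ← hY, e1] at k5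
      have k6 := mul_le_mul_of_nonneg_left k5 (show 0 ≤ β by linarith only [hβ, hEC, hCF, hη0, hY1, hηE, hFY])
      have k7 : ω - η < M * β ^ 2 * (ω - η) := by nlinarith only [hB1, hηω]
      linarith only [k6, k7, hηt, htω]
    · have hs : ω ≤ Y - β * E := by have := h.exp 0 E le_rfl hE0 (by linarith only [hEC, hCF, hY1, hFY]); linarith only [hω, hY, this]
      have hs2 : β - 1 + (Y - β * E) ≤ ν := by
        have := h.exp E 1 hE0 (by linarith only [hEC, hCF, hY1, hFY]) le_rfl; linarith only [hηp, hYq, htν, hηt]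
      have key : ∀ P, 0 ≤ P → P ≤ ω → P ≤ t → E ≤ g^[m] P →
          (β - 1) * (β * (M * β ^ 2) - β + 1) ≤ β * (M * β ^ 2 - 1) * ν := by
        intro P hP0 hPω hPt hPE
        have k1 := boundB_aux h hC1 hC hEC.le hP0 m (hcmpE P hP0 (by linarith only [hβ, hgap, hω, hν, hPω]))
        rw [← hMdef, ← hY] at k1
        have k2 := mul_le_mul_of_nonneg_left hPE (show 0 ≤ β - 1 by linarith only [hβ])
        refine boundB_alg (P := P) (s := Y - β * E) (E := E) hβ hM1 (by linarith only [hs, hPω]) (by linarith only [k1, k2])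
          ?_ hs2
        have e : Y - β * E + β * E = Y := by ring
        rw [e]; linarith only [htν, hPt]
      rcases le_total ω t with h3 | h3
      · exact key ω hω0 le_rfl h3 h2
      · exact key t ht0 h3 le_rfl h1

end Pool.Agent.Work.MP_ea58a7_an.Hedge
end

-- merged part: Pool.Agent.Work.MP_ea58a7_an.Hedge.Link
section
/-!
The final form of the bounds, and the passage from a non-transitive map to an invariant set.
-/

set_option autoImplicit false

namespace Pool.Agent.Work.MP_ea58a7_an.Hedge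

open Set

variable {β : ℝ} {g : ℝ → ℝ} {X : Set ℝ}

lemma cmp_alg {β B B' W : ℝ} (hβ : 1 < β) (hB' : 1 < B') (hBB : β * B' ≤ B) (hB : B < 2)
    (h : B' * (β - 1) ≤ W * (B' - 1)) : (β - 1) * (β * B - β + 1) ≤ (B - 1) * W := by
  have hb : 0 < β - 1 := by linarith
  have hBβ : 0 < B - β := by linarith only [hB', hBB, hβ, mul_pos_of_neg_of_neg (Mathlib.Tactic.Linarith.sub_neg_of_lt hβ) (Mathlib.Tactic.Linarith.sub_neg_of_lt hB')]
  have hW0 : 0 < W := by
    by_contra hW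
    push Not at hW
    linarith only [h, hβ, hB', hB, hBβ, hW, mul_pos_of_neg_of_neg (Mathlib.Tactic.Linarith.sub_neg_of_lt hβ) (Mathlib.Tactic.Linarith.sub_neg_of_lt hβ), mul_pos_of_neg_of_neg (Mathlib.Tactic.Linarith.sub_neg_of_lt hβ) (Mathlib.Tactic.Linarith.sub_neg_of_lt hB'), mul_pos_of_neg_of_neg (Mathlib.Tactic.Linarith.sub_neg_of_lt hβ) (Mathlib.Tactic.Linarith.sub_neg_of_lt hB), mul_pos_of_neg_of_neg (Mathlib.Tactic.Linarith.sub_neg_of_lt hβ) (Mathlib.Tactic.Linarith.sub_neg_of_lt hBβ), mul_nonneg_of_nonpos_of_nonpos (le_of_lt (Mathlib.Tactic.Linarith.sub_neg_of_lt hB')) (Mathlib.Tactic.Linarith.sub_nonpos_of_le hW)]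
  have hW : 0 ≤ W - (β - 1) := by
    by_contra hW
    push Not at hW
    linarith only [h, hβ, hB, hBβ, hW0, hW, hB', mul_pos_of_neg_of_neg (Mathlib.Tactic.Linarith.sub_neg_of_lt hβ) (Mathlib.Tactic.Linarith.sub_neg_of_lt hB), mul_pos_of_neg_of_neg (Mathlib.Tactic.Linarith.sub_neg_of_lt hβ) (Mathlib.Tactic.Linarith.sub_neg_of_lt hBβ), mul_pos_of_neg_of_neg (Mathlib.Tactic.Linarith.sub_neg_of_lt hβ) (Mathlib.Tactic.Linarith.sub_neg_of_lt hW0), mul_pos_of_neg_of_neg (Mathlib.Tactic.Linarith.sub_neg_of_lt hβ) (Mathlib.Tactic.Linarith.sub_neg_of_lt hW), mul_pos_of_neg_of_neg (Mathlib.Tactic.Linarith.sub_neg_of_lt hB') (Mathlib.Tactic.Linarith.sub_neg_of_lt hW)]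
  have h1 : (β - 1) * B ≤ W * (B - β) := by
    have := mul_le_mul_of_nonneg_left hBB hW
    have h2 := mul_le_mul_of_nonneg_left h (show 0 ≤ β by linarith)
    linarith
  have h2 : (β * B - β + 1) * (B - β) ≤ B * (B - 1) := by
    have h3 : 0 ≤ (B - 1) * (β + 1 - B) := mul_nonneg (by linarith) (by linarith)
    have h4 : 0 ≤ (β - 1) * ((B - 1) * (β + 1 - B) + 1) := mul_nonneg hb.le (by linarith)
    linarith
  have h5 := mul_le_mul_of_nonneg_left h1 (show 0 ≤ B - 1 by linarith)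
  have h6 := mul_le_mul_of_nonneg_left h2 hb.le
  have h7 : (β - 1) * (β * B - β + 1) * (B - β) ≤ (B - 1) * W * (B - β) := by linarith
  exact le_of_mul_le_mul_right h7 hBβ

theorem Sys.theta (h : Sys β g X) {n : ℕ} (h1 : β ^ n < 2) (h2 : 2 ≤ β ^ (n + 1)) :
    β ^ n * (β - 1) ≤ (β ^ n - 1) * (β * (g 1 - 1)) ∧ (β + 1 < β ^ (n + 1) →
      (β - 1) * (β * β ^ n - β + 1) ≤ (β ^ n - 1) * (β * (g 1 - 1))) := by
  have hβ := h.hβ
  obtain ⟨m, hA, hB⟩ := h.core
  have e3 : β ^ (m + 3) = β * β ^ (m + 2) := by ring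
  have e2 : β ^ (m + 2) = β * β ^ (m + 1) := by ring
  have hN : β ^ (m + 2) < 2 := by
    rcases hB with h3 | h3
    · rw [e3] at h3
      by_contra h4
      push Not at h4
      linarith only [hβ, h3, h4, mul_nonneg_of_nonpos_of_nonpos (le_of_lt (Mathlib.Tactic.Linarith.sub_neg_of_lt hβ)) (Mathlib.Tactic.Linarith.sub_nonpos_of_le h4)]
    · exact h3.1
  have hmn : m + 2 ≤ n := by
    by_contra h3
    have := pow_le_pow_right₀ hβ.le (show n + 1 ≤ m + 2 by omega)
    linarith only [h2, hN, this]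
  have hA' : β ^ (m + 2) * (β - 1) ≤ β * (g 1 - 1) * (β ^ (m + 2) - 1) := by
    have := mul_le_mul_of_nonneg_left hA (show 0 ≤ β by linarith)
    rw [e2] at this ⊢
    linarith only [this]
  rcases hmn.lt_or_eq with h3 | h3
  · have h4 : β * β ^ (m + 2) ≤ β ^ n := by
      rw [← e3]; exact pow_le_pow_right₀ hβ.le (by omega)
    have h5 := cmp_alg hβ (one_lt_pow₀ hβ (by omega)) h4 h1 hA'
    refine ⟨le_trans ?_ h5, fun _ => h5⟩
    have h6 : 1 ≤ β ^ n := one_le_pow₀ hβ.le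
    have h7 : 0 ≤ (β - 1) * ((β - 1) * (β ^ n - 1)) :=
      mul_nonneg (by linarith only [hβ]) (mul_nonneg (by linarith only [hβ]) (by linarith only [h6]))
    linarith only [h7]
  · subst h3
    refine ⟨by linarith only [hA'], fun h4 => ?_⟩
    rcases hB with h5 | h5
    · exact absurd h5 (not_le.2 h4)
    · linarith only [h5, h5.2]

/-- The closure of the orbit of an open set that never meets another open set. -/
theorem exists_sys {f : ℝ → ℝ} (hβ : 1 < β) (hc : ContinuousOn f (Icc 0 1)) (h0 : 0 ≤ f 0)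
    (h1 : f 1 ≤ 2) (he : ∀ x y, 0 ≤ x → x ≤ y → y ≤ 1 → β * (y - x) ≤ f y - f x)
    {U V : Set ℝ} (hU : IsOpen U) (hV : IsOpen V) {u v : ℝ} (hu : u ∈ U) (hu' : u ∈ Ico (0 : ℝ) 1)
    (hv : v ∈ V) (hv' : v ∈ Ico (0 : ℝ) 1)
    (hno : ∀ (n : ℕ) (z : ℝ), z ∈ U → z ∈ Ico (0 : ℝ) 1 →
      (fun y => Int.fract (f y))^[n] z ∉ V) : ∃ X, Sys β f X := by
  set O : Set ℝ := {y | ∃ (n : ℕ) (z : ℝ), z ∈ U ∧ z ∈ Ico (0 : ℝ) 1 ∧
    (fun y => Int.fract (f y))^[n] z = y} with hO
  have hinv : ∀ x ∈ closure O, 0 < x → x < 1 → f x ≠ 1 → Int.fract (f x) ∈ closure O := by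
    intro x hx hx0 hx1 hne
    have k1 := he 0 x le_rfl hx0.le hx1.le
    have k2 := he x 1 hx0.le hx1.le le_rfl
    have hf0 : 0 < f x := by linarith only [h0, hx0, k1, hβ, mul_pos_of_neg_of_neg (Mathlib.Tactic.Linarith.sub_neg_of_lt hβ) (Mathlib.Tactic.Linarith.sub_neg_of_lt hx0)]
    have hf2 : f x < 2 := by linarith only [h1, hx1, k2, hβ, mul_pos_of_neg_of_neg (Mathlib.Tactic.Linarith.sub_neg_of_lt hβ) (Mathlib.Tactic.Linarith.sub_neg_of_lt hx1)]
    have hca : ContinuousAt f x := hc.continuousAt (Icc_mem_nhds hx0 hx1)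
    have hfl : f x ≠ ⌊f x⌋ := by
      intro heq
      have a1 : (0 : ℝ) < (⌊f x⌋ : ℤ) := heq ▸ hf0
      have a2 : ((⌊f x⌋ : ℤ) : ℝ) < 2 := heq ▸ hf2
      have a3 : (0 : ℤ) < ⌊f x⌋ := by exact_mod_cast a1
      have a4 : ⌊f x⌋ < (2 : ℤ) := by exact_mod_cast a2
      have a5 : ⌊f x⌋ = 1 := by omega
      rw [a5] at heq
      exact hne (by simpa using heq)
    have hcf : ContinuousAt (fun y => Int.fract (f y)) x :=
      ContinuousAt.comp (g := Int.fract) (continuousAt_fract hfl) hca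
    have := mem_closure_image hcf hx
    refine closure_mono ?_ this
    rintro _ ⟨y, ⟨n, z, hz, hz', rfl⟩, rfl⟩
    exact ⟨n + 1, z, hz, hz', by rw [Function.iterate_succ_apply']⟩
  have near : ∀ W : Set ℝ, IsOpen W → ∀ w ∈ W, w ∈ Ico (0 : ℝ) 1 →
      ∃ b, w < b ∧ b ≤ 1 ∧ Ioo w b ⊆ W := by
    intro W hW w hw hw'
    obtain ⟨ε, hε, hb⟩ := Metric.isOpen_iff.1 hW w hw
    refine ⟨min (w + ε) 1, lt_min (by linarith) hw'.2, min_le_right _ _, ?_⟩
    intro y hy
    apply hb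
    have := lt_of_lt_of_le hy.2 (min_le_left _ _)
    rw [Real.ball_eq_Ioo]
    exact ⟨by linarith [hy.1], this⟩
  refine ⟨closure O, hβ, hc, h0, h1, he, isClosed_closure, ?_, ?_, ?_, ?_⟩
  · intro x hx hx0 hx1 hlt
    have k1 := he 0 x le_rfl hx0.le hx1.le
    have := hinv x hx hx0 hx1 hlt.ne
    rwa [Int.fract_eq_self.2 ⟨by linarith only [h0, hx0, k1, hβ, mul_pos_of_neg_of_neg (Mathlib.Tactic.Linarith.sub_neg_of_lt hβ) (Mathlib.Tactic.Linarith.sub_neg_of_lt hx0)], hlt⟩] at this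
  · intro x hx hx0 hx1 hlt
    have k2 := he x 1 hx0.le hx1.le le_rfl
    have := hinv x hx hx0 hx1 hlt.ne'
    have e : Int.fract (f x) = f x - 1 := by
      rw [Int.fract_eq_iff]
      exact ⟨by linarith, by linarith only [h1, hx1, k2, hβ, mul_pos_of_neg_of_neg (Mathlib.Tactic.Linarith.sub_neg_of_lt hβ) (Mathlib.Tactic.Linarith.sub_neg_of_lt hx1)], 1, by simp⟩
    rwa [e] at this
  · obtain ⟨b, hub, hb, hI⟩ := near U hU u hu hu'
    refine ⟨u, b, hu'.1, hub, hb, fun y hy => subset_closure ?_⟩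
    exact ⟨0, y, hI hy, ⟨by linarith [hu'.1, hy.1], by linarith [hy.2]⟩, rfl⟩
  · intro hall
    obtain ⟨b, hvb, hb, hI⟩ := near V hV v hv hv'
    have hy : (v + b) / 2 ∈ Ioo v b := ⟨by linarith only [hvb], by linarith⟩
    have hy' : (v + b) / 2 ∈ Ioo (0 : ℝ) 1 := ⟨by linarith [hv'.1], by linarith⟩
    obtain ⟨y, hyV, n, z, hz, hz', rfl⟩ := mem_closure_iff.1 (hall hy') V hV (hI hy)
    exact hno n z hz hz' hyV

end Pool.Agent.Work.MP_ea58a7_an.Hedge
end
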